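import Pool.Agent.Lib.MP_226de1_co.P.KTrig

/-!
# MP_226de1_co, `1 ≤ k ≤ 2`: polar data from principal powers
-/

set_option autoImplicit false

namespace EQ2K

open Complex

private theorem br_mul_lt {k x : ℝ} (hk2 : k ≤ 2) (h0 : 0 < x) (h1 : x < Real.pi / 2) :
    k * x < Real.pi := by
  have := mul_le_mul_of_nonneg_right hk2 h0.le
  linarith

private theorem br_sin_pos {k x : ℝ} (hk : 1 ≤ k) (hk2 : k ≤ 2) (h0 : 0 < x)
    (h1 : x < Real.pi / 2) : 0 < Real.sin (k * x) :=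
  Real.sin_pos_of_pos_of_lt_pi (mul_pos (by linarith) h0) (br_mul_lt hk2 h0 h1)

private theorem br_ne {r : ℂ} (h0 : 0 < arg r) : r ≠ 0 := by
  rintro rfl
  simp at h0

private theorem br_im {k c : ℝ} {r : ℂ} (hk : 1 ≤ k) (hk2 : k ≤ 2) (h0 : 0 < arg r)
    (h1 : arg r < Real.pi / 2) : ((c : ℂ) - r ^ (k : ℂ)).im < 0 := by
  rw [sub_im, ofReal_im, cpow_ofReal_im, mul_comm (arg r) k]
  have h2 := br_sin_pos hk hk2 h0 h1
  have h3 : 0 < ‖r‖ := norm_pos_iff.mpr (br_ne h0)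
  have h4 : 0 < ‖r‖ ^ k := Real.rpow_pos_of_pos h3 k
  have := mul_pos h4 h2
  linarith

/-- `r^k = ‖r‖^k e^{i k β}`, `0 < kβ < π`, so `c - r^k` has negative imaginary part and
`s^k = ‖s‖^k e^{-i k γ}` with `sin (kγ) > 0`; from `-π < k arg s ≤ π`: `0 < kγ < π`. -/
theorem pol_of_pow {k c : ℝ} {r s : ℂ} (hk : 1 ≤ k) (hk2 : k ≤ 2) (hc : 0 < c) (h0 : 0 < arg r)
    (h1 : arg r < Real.pi / 2) (hs : s ^ (k : ℂ) = c - r ^ (k : ℂ)) (hs1 : -Real.pi < k * arg s)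
    (hs2 : k * arg s ≤ Real.pi) : Pol k c (arg r) (-(arg s)) ‖r‖ ‖s‖ := by
  have hk0 : 0 < k := by linarith
  have him := br_im (c := c) hk hk2 h0 h1
  have hs0 : s ≠ 0 := by
    rintro rfl
    rw [← hs, zero_cpow (ofReal_ne_zero.mpr hk0.ne'), zero_im] at him
    exact lt_irrefl _ him
  have hS : 0 < ‖s‖ := norm_pos_iff.mpr hs0
  have hSk : 0 < ‖s‖ ^ k := Real.rpow_pos_of_pos hS k
  have e1 := congrArg re hs
  have e2 := congrArg im hs
  rw [sub_re, ofReal_re, cpow_ofReal_re, cpow_ofReal_re, mul_comm (arg s) k,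
    mul_comm (arg r) k] at e1
  rw [sub_im, ofReal_im, cpow_ofReal_im, cpow_ofReal_im, mul_comm (arg s) k,
    mul_comm (arg r) k] at e2
  have h2 := br_sin_pos hk hk2 h0 h1
  have h4 : 0 < ‖r‖ ^ k := Real.rpow_pos_of_pos (norm_pos_iff.mpr (br_ne h0)) k
  have h5 : Real.sin (k * arg s) < 0 := by
    by_contra hge
    rw [not_lt] at hge
    have := mul_nonneg hSk.le hge
    have := mul_pos h4 h2
    linarith
  have h6 : k * arg s < 0 := by
    by_contra hge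
    rw [not_lt] at hge
    exact absurd (Real.sin_nonneg_of_nonneg_of_le_pi hge hs2) (not_le.mpr h5)
  exact
    { hk := hk
      hk2 := hk2
      hc := hc
      hR := norm_pos_iff.mpr (br_ne h0)
      hS := hS
      β0 := h0
      β1 := h1
      γ0 := by
        have : arg s < 0 := by
          by_contra hge
          rw [not_lt] at hge
          have := mul_nonneg hk0.le hge
          linarith
        linarith
      γ1 := by
        rw [mul_neg]
        linarith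
      re := by
        rw [mul_neg, Real.cos_neg]
        linarith
      im := by
        rw [mul_neg, Real.sin_neg]
        linarith }

private theorem br_arg {k : ℝ} {w : ℂ} (hk : 1 ≤ k) :
    (log w * ((1 / k : ℝ) : ℂ)).im = arg w / k ∧ -Real.pi < (log w * ((1 / k : ℝ) : ℂ)).im ∧
      (log w * ((1 / k : ℝ) : ℂ)).im ≤ Real.pi := by
  have hk0 : 0 < k := by linarith
  have h1 : (log w * ((1 / k : ℝ) : ℂ)).im = arg w / k := by
    rw [im_mul_ofReal, log_im]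
    ring
  rw [h1]
  have h2 := neg_pi_lt_arg w
  have h3 := arg_le_pi w
  have hp := Real.pi_pos
  refine ⟨rfl, ?_, ?_⟩
  · rw [lt_div_iff₀ hk0]
    nlinarith
  · rw [div_le_iff₀ hk0]
    nlinarith

private theorem br_w_ne {k c : ℝ} {r : ℂ} (hk : 1 ≤ k) (hk2 : k ≤ 2) (h0 : 0 < arg r)
    (h1 : arg r < Real.pi / 2) : (c : ℂ) - r ^ (k : ℂ) ≠ 0 := by
  intro h
  have him := br_im (c := c) hk hk2 h0 h1
  rw [h, zero_im] at him
  exact lt_irrefl _ him

private theorem br_root {k c : ℝ} {r s : ℂ} (hk : 1 ≤ k)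
    (hs : s = (c - r ^ (k : ℂ)) ^ ((1 / k : ℝ) : ℂ)) :
    s ^ (k : ℂ) = c - r ^ (k : ℂ) := by
  have hk0 : 0 < k := by linarith
  obtain ⟨-, h2, h3⟩ := br_arg (w := (c : ℂ) - r ^ (k : ℂ)) hk
  rw [hs, ← cpow_mul (k : ℂ) h2 h3]
  have h4 : ((1 / k : ℝ) : ℂ) * (k : ℂ) = 1 := by
    rw [← ofReal_mul, one_div_mul_cancel hk0.ne', ofReal_one]
  rw [h4, cpow_one]

/-- the principal root: `s = (c - r^k)^(1/k)` has `arg s = arg (c - r^k) / k` and
`s^k = c - r^k` -/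
theorem pol_of_root {k c : ℝ} {r s : ℂ} (hk : 1 ≤ k) (hk2 : k ≤ 2) (hc : 0 < c) (h0 : 0 < arg r)
    (h1 : arg r < Real.pi / 2) (hs : s = (c - r ^ (k : ℂ)) ^ ((1 / k : ℝ) : ℂ)) :
    Pol k c (arg r) (-(arg s)) ‖r‖ ‖s‖ := by
  have hk0 : 0 < k := by linarith
  obtain ⟨h4, h2, h3⟩ := br_arg (w := (c : ℂ) - r ^ (k : ℂ)) hk
  have hw := br_w_ne (c := c) hk hk2 h0 h1
  have h5 : arg s = arg ((c : ℂ) - r ^ (k : ℂ)) / k := by
    rw [← log_im, hs, cpow_def_of_ne_zero hw, log_exp h2 h3, h4]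
  have h6 : k * arg s = arg ((c : ℂ) - r ^ (k : ℂ)) := by
    rw [h5]
    field_simp
  refine pol_of_pow hk hk2 hc h0 h1 (br_root hk hs) ?_ ?_
  · rw [h6]
    exact neg_pi_lt_arg _
  · rw [h6]
    exact arg_le_pi _

/-- `s^k` for the principal root -/
theorem root_pow {k c : ℝ} {r s : ℂ} (hk : 1 ≤ k) (hk2 : k ≤ 2) (hc : 0 < c) (h0 : 0 < arg r)
    (h1 : arg r < Real.pi / 2) (hs : s = (c - r ^ (k : ℂ)) ^ ((1 / k : ℝ) : ℂ)) :
    s ^ (k : ℂ) = c - r ^ (k : ℂ) :=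
  br_root hk hs

end EQ2K
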