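import Pool.Agent.Lib.MP_226de1_co.P.KTrig

/-!
# MP_226de1_co, `1 ≤ k ≤ 2`: the J lemma

`r = r_n`, `s = s_{n+1}`, `sm = s_n`, `X = X_n`, `sm² = r² + 4aX + 4a²`,
`r_{n+1}² = s² - 4a (s/r) X + 4a²`.
-/

set_option autoImplicit false

namespace EQ2K

open Complex

/-- Real form.  `W = 4 a |X|`, `X = |X| e^{-iχ}`.  `W sin χ ≥ R² sin 2β`, `χ + β ≤ π/2`, so
`cos χ cos β ≥ sin β sin χ` and
`W sin (β+γ+χ) cos β = W sin χ sin (β+γ)·(cos χ cos β)/sin χ + … ≥ W sin χ (sin (β+γ) sin β + cos (β+γ) cos β)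
 = W sin χ cos γ ≥ R² sin 2β cos γ`, hence `W sin (β+γ+χ) ≥ 2 R² sin β cos γ`
(here `sin (β+γ) ≥ 0`); multiply by `S/R` and use `Pol.main_ineq`. -/
theorem J_real {k c β γ R S χ W : ℝ} (h : Pol k c β γ R S) (hγ : γ ≤ Real.pi / 2) (hW : 0 ≤ W)
    (hχ0 : 0 ≤ χ) (hχ : χ + β ≤ Real.pi / 2) (h1 : R ^ 2 * Real.sin (2 * β) ≤ W * Real.sin χ) :
    0 ≤ R ^ 2 * Real.sin (2 * β) - S ^ 2 * Real.sin (2 * γ)
      + S / R * (W * Real.sin (β + γ + χ)) := by
  have hR := h.hR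
  have hS := h.hS
  have hβ0 := h.β0
  have hβ1 := h.β1
  have hγ0 := h.γ0
  have hmain := h.main_ineq hγ
  have hcβ : 0 < Real.cos β := Real.cos_pos_of_mem_Ioo ⟨by linarith [Real.pi_pos], hβ1⟩
  have hcγ : 0 ≤ Real.cos γ := Real.cos_nonneg_of_mem_Icc ⟨by linarith [Real.pi_pos], hγ⟩
  have hs : 0 ≤ Real.sin (β + γ) := Real.sin_nonneg_of_mem_Icc ⟨by linarith, by linarith⟩
  have hc : 0 ≤ Real.cos (χ + β) := Real.cos_nonneg_of_mem_Icc ⟨by linarith [Real.pi_pos], hχ⟩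
  have hsχ : 0 ≤ Real.sin χ := Real.sin_nonneg_of_mem_Icc ⟨hχ0, by linarith [Real.pi_pos]⟩
  rw [Real.cos_add] at hc
  have e1 : Real.sin (β + γ + χ) = Real.sin (β + γ) * Real.cos χ + Real.cos (β + γ) * Real.sin χ :=
    Real.sin_add _ _
  have e2 : Real.cos γ = Real.cos (β + γ) * Real.cos β + Real.sin (β + γ) * Real.sin β := by
    rw [← Real.cos_sub]
    congr 1
    ring
  have h2 : Real.sin χ * Real.cos γ ≤ Real.sin (β + γ + χ) * Real.cos β := by
    rw [e1, e2]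
    nlinarith [mul_nonneg hs hc]
  have h3 : R ^ 2 * Real.sin (2 * β) * Real.cos γ ≤ W * Real.sin (β + γ + χ) * Real.cos β := by
    calc R ^ 2 * Real.sin (2 * β) * Real.cos γ ≤ W * Real.sin χ * Real.cos γ :=
          mul_le_mul_of_nonneg_right h1 hcγ
      _ = W * (Real.sin χ * Real.cos γ) := by ring
      _ ≤ W * (Real.sin (β + γ + χ) * Real.cos β) := mul_le_mul_of_nonneg_left h2 hW
      _ = W * Real.sin (β + γ + χ) * Real.cos β := by ring
  have h4 : 2 * R ^ 2 * (Real.sin β * Real.cos γ) ≤ W * Real.sin (β + γ + χ) := by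
    rw [Real.sin_two_mul] at h3
    have h5 : 2 * R ^ 2 * (Real.sin β * Real.cos γ) * Real.cos β ≤
        W * Real.sin (β + γ + χ) * Real.cos β := by
      refine le_trans (le_of_eq ?_) h3
      ring
    exact le_of_mul_le_mul_right h5 hcβ
  have h6 : 2 * (R * S) * (Real.sin β * Real.cos γ) ≤ S / R * (W * Real.sin (β + γ + χ)) := by
    have h7 := mul_le_mul_of_nonneg_left h4 (show 0 ≤ S / R by positivity)
    refine le_trans (le_of_eq ?_) h7
    field_simp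
  linarith

private theorem JLem_polar (z : ℂ) :
    z = ((‖z‖ : ℝ) : ℂ) * Complex.exp (((arg z : ℝ) : ℂ) * I) := (norm_mul_exp_arg_mul_I z).symm

private theorem JLem_im (ρ θ : ℝ) : (((ρ : ℝ) : ℂ) * Complex.exp ((θ : ℂ) * I)).im =
    ρ * Real.sin θ := by
  rw [im_ofReal_mul, exp_ofReal_mul_I_im]

private theorem JLem_re (ρ θ : ℝ) : (((ρ : ℝ) : ℂ) * Complex.exp ((θ : ℂ) * I)).re =
    ρ * Real.cos θ := by
  rw [re_ofReal_mul, exp_ofReal_mul_I_re]

private theorem JLem_sq (z : ℂ) : z ^ 2 =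
    ((‖z‖ ^ 2 : ℝ) : ℂ) * Complex.exp (((2 * arg z : ℝ) : ℂ) * I) := by
  conv_lhs => rw [JLem_polar z]
  rw [mul_pow, ← Complex.exp_nat_mul]
  push_cast
  congr 2
  ring

private theorem JLem_div (z w : ℂ) : z / w =
    ((‖z‖ / ‖w‖ : ℝ) : ℂ) * Complex.exp (((arg z - arg w : ℝ) : ℂ) * I) := by
  conv_lhs => rw [JLem_polar z, JLem_polar w]
  rw [mul_div_mul_comm, ← Complex.exp_sub]
  push_cast
  congr 2
  ring

private theorem JLem_divmul (s r X : ℂ) : s / r * X =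
    ((‖s‖ / ‖r‖ * ‖X‖ : ℝ) : ℂ) * Complex.exp (((arg s - arg r + arg X : ℝ) : ℂ) * I) := by
  rw [JLem_div s r]
  conv_lhs => rw [JLem_polar X]
  have : ((arg s - arg r + arg X : ℝ) : ℂ) * I =
      ((arg s - arg r : ℝ) : ℂ) * I + ((arg X : ℝ) : ℂ) * I := by
    push_cast
    ring
  rw [this, Complex.exp_add]
  push_cast
  ring

/-- The J lemma.  `β = arg r`, `γ = -arg s`, `χ = -arg X`: `Im (4aX) ≤ - Im r² < 0`, so `0 < χ < π`;
`Re (X/r) ≥ 0` gives `cos (χ + β) ≥ 0`, so `χ + β ≤ π/2` (as `χ + β < 3π/2`); then `J_real` with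
`W = 4 a ‖X‖`. -/
theorem J_lemma {k c a : ℝ} {r s sm X : ℂ} (ha : 0 < a)
    (h : Pol k c (arg r) (-(arg s)) ‖r‖ ‖s‖) (hγ : -(arg s) ≤ Real.pi / 2)
    (hsm : sm ^ 2 = r ^ 2 + 4 * a * X + 4 * a ^ 2) (him : (sm ^ 2).im ≤ 0)
    (hre : 0 ≤ (X / r).re) :
    0 ≤ (r ^ 2 + (s ^ 2 - 4 * a * (s / r * X) + 4 * a ^ 2)).im := by
  have hR := h.hR
  have hS := h.hS
  have hβ0 := h.β0
  have hβ1 := h.β1
  have i1 : (r ^ 2).im = ‖r‖ ^ 2 * Real.sin (2 * arg r) := by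
    rw [JLem_sq, JLem_im]
  have i2 : (s ^ 2).im = ‖s‖ ^ 2 * Real.sin (2 * arg s) := by
    rw [JLem_sq, JLem_im]
  have c4 : ∀ z : ℂ, (4 * (a : ℂ) * z).im = 4 * a * z.im := by
    intro z
    have : (4 * (a : ℂ) * z) = ((4 * a : ℝ) : ℂ) * z := by
      push_cast
      ring
    rw [this, im_ofReal_mul]
  have c5 : (4 * (a : ℂ) ^ 2).im = 0 := by
    have : (4 * (a : ℂ) ^ 2) = ((4 * a ^ 2 : ℝ) : ℂ) := by push_cast; ring
    rw [this, ofReal_im]
  have hsin : 0 < Real.sin (2 * arg r) := Real.sin_pos_of_pos_of_lt_pi (by linarith) (by linarith)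
  have hXim : ‖r‖ ^ 2 * Real.sin (2 * arg r) + 4 * a * X.im ≤ 0 := by
    rw [hsm, add_im, add_im, i1, c4, c5, add_zero] at him
    exact him
  have hX0 : X.im < 0 := by
    by_contra hcon
    rw [not_lt] at hcon
    have h1 : 0 < ‖r‖ ^ 2 * Real.sin (2 * arg r) := by positivity
    have h2 : 0 ≤ 4 * a * X.im := by positivity
    linarith
  have hXarg : arg X < 0 := arg_neg_iff.mpr hX0
  have hXarg2 : -Real.pi < arg X := neg_pi_lt_arg X
  have hXne : X ≠ 0 := by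
    rintro rfl
    simp at hX0
  have hXn : 0 < ‖X‖ := norm_pos_iff.mpr hXne
  have hXi : X.im = ‖X‖ * Real.sin (arg X) := (norm_mul_sin_arg X).symm
  have hcos : 0 ≤ Real.cos (-arg X + arg r) := by
    rw [JLem_div X r, JLem_re] at hre
    have h1 : 0 < ‖X‖ / ‖r‖ := by positivity
    have h2 : 0 ≤ Real.cos (arg X - arg r) := by
      by_contra hcon
      rw [not_le] at hcon
      have := mul_neg_of_pos_of_neg h1 hcon
      linarith
    have h3 : -arg X + arg r = -(arg X - arg r) := by ring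
    rw [h3, Real.cos_neg]
    exact h2
  have hχ : -arg X + arg r ≤ Real.pi / 2 := by
    by_contra hcon
    rw [not_le] at hcon
    have := Real.cos_neg_of_pi_div_two_lt_of_lt hcon (by linarith)
    linarith
  have hkey := J_real (W := 4 * a * ‖X‖) (χ := -arg X) h hγ (by positivity) (by linarith) hχ (by
    rw [Real.sin_neg]
    rw [hXi] at hXim
    nlinarith)
  have i3 : (s / r * X).im = ‖s‖ / ‖r‖ * ‖X‖ * Real.sin (arg s - arg r + arg X) := by
    rw [JLem_divmul, JLem_im]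
  rw [add_im, add_im, sub_im, c4, c5, i1, i2, i3]
  have e1 : Real.sin (2 * -arg s) = -Real.sin (2 * arg s) := by
    rw [← Real.sin_neg]
    congr 1
    ring
  have e2 : Real.sin (arg r + -arg s + -arg X) = -Real.sin (arg s - arg r + arg X) := by
    rw [← Real.sin_neg]
    congr 1
    ring
  rw [e1, e2] at hkey
  refine le_trans hkey (le_of_eq ?_)
  ring

end EQ2K
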