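import Pool.Agent.Lib.MP_226de1_co.P.KTrig

/-!
# MP_226de1_co, `1 ≤ k ≤ 2`: `1 + q_n² ∉ (-∞, 0]`

`r = r_{n-1}`, `s = s_n`, `sm = s_{n-1}`, `X = X_{n-1}`, `Y = Y_{n-1}`.
-/

set_option autoImplicit false

namespace EQ2K

open Complex

private theorem re_mul_exp (x y : ℝ) : ((x : ℂ) * exp (y * I)).re = x * Real.cos y := by
  rw [re_ofReal_mul, exp_ofReal_mul_I_re]

private theorem im_mul_exp (x y : ℝ) : ((x : ℂ) * exp (y * I)).im = x * Real.sin y := by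
  rw [im_ofReal_mul, exp_ofReal_mul_I_im]

private theorem neg_arg (y : ℝ) : -((y : ℂ) * I) = ((-y : ℝ) : ℂ) * I := by
  push_cast
  ring

/-- Let `A = |A| e^{-ig}`, so `B = |B| e^{ig}` (`AB = 4a² > 0`), `ζ = 4a²/s = |ζ| e^{iγ}`, `γ = -arg s`.
Imaginary and real part of `hB`:
`(|B| + κ|A|) sin g = (1-κ)|ζ| sin γ ≥ 0`, `(|B| - κ|A|) cos g = (1-κ)|ζ| cos γ`;
`Re (A+B) = (|A|+|B|) cos g ≥ 0`.  So `0 ≤ g ≤ π/2`, and `sin g cos γ ≤ cos g sin γ`
(`(|B|+κ|A|) sin g cos γ = (|B|-κ|A|) cos g sin γ ≤ (|B|+κ|A|) cos g sin γ`), i.e. `g ≤ γ`. -/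
theorem NZ_g {a κ γ : ℝ} {s A B : ℂ} (ha : 0 < a) (hs : s ≠ 0) (hγs : γ = -(arg s)) (hγ0 : 0 < γ)
    (hγ : γ ≤ Real.pi / 2) (hκ0 : 0 ≤ κ) (hκ1 : κ < 1) (hAB : A * B = 4 * a ^ 2)
    (hB : B = κ * A + (1 - κ) * (4 * a ^ 2 / s)) (hre : 0 ≤ (A + B).re) :
    ∃ g : ℝ, 0 ≤ g ∧ g ≤ γ ∧ A = ‖A‖ * exp (-(g * I)) ∧ B = ‖B‖ * exp (g * I) ∧
      0 < ‖A‖ ∧ 0 < ‖B‖ := by
  have ha' : (a : ℂ) ≠ 0 := ofReal_ne_zero.2 ha.ne'
  have hAB0 : A * B ≠ 0 := by
    rw [hAB]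
    exact mul_ne_zero (by norm_num) (pow_ne_zero _ ha')
  have hA0 : A ≠ 0 := left_ne_zero_of_mul hAB0
  have hB0 : B ≠ 0 := right_ne_zero_of_mul hAB0
  have hAp : 0 < ‖A‖ := norm_pos_iff.2 hA0
  have hBp : 0 < ‖B‖ := norm_pos_iff.2 hB0
  have hBe : B = ‖B‖ * exp (arg B * I) := (norm_mul_exp_arg_mul_I B).symm
  set g : ℝ := arg B with hg
  have hnorm : ‖A‖ * ‖B‖ = 4 * a ^ 2 := by
    rw [← norm_mul, hAB]
    have : (4 * (a : ℂ) ^ 2) = ((4 * a ^ 2 : ℝ) : ℂ) := by push_cast; ring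
    rw [this, norm_real, Real.norm_of_nonneg (by positivity)]
  have hAe : A = ‖A‖ * exp (-(g * I)) := by
    have h1 : A * B = (‖A‖ * exp (-(g * I))) * B := by
      rw [hAB]
      have h2 : (‖A‖ * exp (-(g * I)) : ℂ) * B = (‖A‖ * ‖B‖ : ℂ) * (exp (-(g * I)) * exp (g * I)) := by
        conv_lhs => rw [hBe]
        ring
      rw [h2, ← exp_add, neg_add_cancel, exp_zero, mul_one]
      have h3 : ((‖A‖ * ‖B‖ : ℝ) : ℂ) = ((4 * a ^ 2 : ℝ) : ℂ) := by rw [hnorm]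
      push_cast at h3
      exact h3.symm
    exact mul_right_cancel₀ hB0 h1
  have hAre : A.re = ‖A‖ * Real.cos g := by
    conv_lhs => rw [hAe]
    rw [neg_arg, re_mul_exp, Real.cos_neg]
  have hAim : A.im = -(‖A‖ * Real.sin g) := by
    conv_lhs => rw [hAe]
    rw [neg_arg, im_mul_exp, Real.sin_neg]
    ring
  have hBre : B.re = ‖B‖ * Real.cos g := by
    conv_lhs => rw [hBe]
    rw [re_mul_exp]
  have hBim : B.im = ‖B‖ * Real.sin g := by
    conv_lhs => rw [hBe]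
    rw [im_mul_exp]
  -- the number `ζ`
  set z : ℝ := 4 * a ^ 2 / ‖s‖ with hz
  have hsp : 0 < ‖s‖ := norm_pos_iff.2 hs
  have hzp : 0 < z := by positivity
  have hζ : 4 * (a : ℂ) ^ 2 / s = z * exp (γ * I) := by
    have h1 : s = ‖s‖ * exp (arg s * I) := (norm_mul_exp_arg_mul_I s).symm
    rw [div_eq_iff hs]
    conv_rhs => rw [h1]
    have h2 : (z : ℂ) * exp (γ * I) * (‖s‖ * exp (arg s * I)) =
        ((z * ‖s‖ : ℝ) : ℂ) * exp (γ * I + arg s * I) := by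
      rw [exp_add]
      push_cast
      ring
    rw [h2, hγs]
    have h3 : ((-(arg s) : ℝ) : ℂ) * I + arg s * I = 0 := by
      push_cast
      ring
    rw [h3, exp_zero, mul_one, hz, div_mul_cancel₀ _ hsp.ne']
    push_cast
    ring
  have hB' : B = κ * A + ((1 - κ : ℝ) : ℂ) * (z * exp (γ * I)) := by
    rw [hB, hζ]
    push_cast
    ring
  have him : B.im = κ * A.im + (1 - κ) * (z * Real.sin γ) := by
    have h1 := congrArg Complex.im hB'
    rwa [add_im, im_ofReal_mul, im_ofReal_mul, im_mul_exp] at h1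
  have hre' : B.re = κ * A.re + (1 - κ) * (z * Real.cos γ) := by
    have h1 := congrArg Complex.re hB'
    rwa [add_re, re_ofReal_mul, re_ofReal_mul, re_mul_exp] at h1
  rw [hBim, hAim] at him
  rw [hBre, hAre] at hre'
  rw [add_re, hAre, hBre, ← add_mul] at hre
  have hsum : 0 < ‖A‖ + ‖B‖ := by positivity
  have hcos : 0 ≤ Real.cos g := by
    by_contra hcon
    exact absurd hre (not_le.2 (mul_neg_of_pos_of_neg hsum (not_le.1 hcon)))
  have hsγ : 0 < Real.sin γ := Real.sin_pos_of_pos_of_lt_pi hγ0 (by linarith [Real.pi_pos])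
  have hcγ : 0 ≤ Real.cos γ := Real.cos_nonneg_of_neg_pi_div_two_le_of_le (by linarith) hγ
  have hD : 0 < ‖B‖ + κ * ‖A‖ := by positivity
  have him2 : (‖B‖ + κ * ‖A‖) * Real.sin g = (1 - κ) * (z * Real.sin γ) := by linarith
  have hre2 : (‖B‖ - κ * ‖A‖) * Real.cos g = (1 - κ) * (z * Real.cos γ) := by linarith
  have hsg : 0 < Real.sin g := by
    have h1 : 0 < (‖B‖ + κ * ‖A‖) * Real.sin g := by
      rw [him2]
      exact mul_pos (by linarith) (mul_pos hzp hsγ)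
    exact (pos_iff_pos_of_mul_pos h1).1 hD
  have hg0 : 0 < g := by
    by_contra hcon
    have h1 := Real.sin_nonpos_of_nonpos_of_neg_pi_le (not_lt.1 hcon) (neg_pi_lt_arg B).le
    linarith
  have hg1 : g ≤ Real.pi / 2 := by
    by_contra hcon
    have h1 := Real.cos_neg_of_pi_div_two_lt_of_lt (not_le.1 hcon)
      (lt_of_le_of_lt (arg_le_pi B) (by linarith [Real.pi_pos]))
    linarith
  refine ⟨g, hg0.le, ?_, hAe, hBe, hAp, hBp⟩
  by_contra hcon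
  rw [not_le] at hcon
  have h1 : 0 < Real.sin (g - γ) :=
    Real.sin_pos_of_pos_of_lt_pi (by linarith) (by linarith [Real.pi_pos])
  rw [Real.sin_sub] at h1
  have h2 : (‖B‖ + κ * ‖A‖) * (Real.sin g * Real.cos γ) =
      (‖B‖ - κ * ‖A‖) * (Real.cos g * Real.sin γ) := by
    have e1 : (‖B‖ + κ * ‖A‖) * (Real.sin g * Real.cos γ) =
      ((‖B‖ + κ * ‖A‖) * Real.sin g) * Real.cos γ := by ring
    have e2 : (‖B‖ - κ * ‖A‖) * (Real.cos g * Real.sin γ) =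
      ((‖B‖ - κ * ‖A‖) * Real.cos g) * Real.sin γ := by ring
    rw [e1, e2, him2, hre2]
    ring
  have h3 : 0 ≤ κ * ‖A‖ * (Real.cos g * Real.sin γ) := by positivity
  have h4 := mul_pos hD h1
  have h5 : (‖B‖ + κ * ‖A‖) * (Real.sin g * Real.cos γ - Real.cos g * Real.sin γ) =
      (‖B‖ + κ * ‖A‖) * (Real.sin g * Real.cos γ) - (‖B‖ - κ * ‖A‖) * (Real.cos g * Real.sin γ)
        - 2 * (κ * ‖A‖ * (Real.cos g * Real.sin γ)) := by ring
  rw [h5, h2] at h4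
  linarith

/-- With `g` from `NZ_g`, `β = arg r`, `R = ‖r‖`: `Im (r+A)(r+B) = R² sin 2β + R|A| sin (β-g) +
R|B| sin (β+g) ≤ 0`, the last term is `≥ 0`, so `|A| sin (g-β) ≥ R sin 2β > 0`, in particular `β < g`.
`‖r+B‖ ≥ ‖r‖` (the angle between `r` and `B` is `≤ π/2`), so
`‖(r+A)(r+B)‖ ≥ ‖r(r+A)‖ ≥ Re (r(r+A)) = R² cos 2β + R|A| cos (g-β)`, and multiplied by `sin (g-β) > 0`
this is `≥ R² (cos 2β sin (g-β) + sin 2β cos (g-β)) = R² sin (g+β)`. -/
theorem NZ_lower {β g R : ℝ} {r A B : ℂ} (hr : r = R * exp (β * I)) (hR : 0 < R) (hβ0 : 0 < β)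
    (hβ : β < Real.pi / 2) (hg0 : 0 ≤ g) (hg : g ≤ Real.pi / 2)
    (hA : A = ‖A‖ * exp (-(g * I))) (hB : B = ‖B‖ * exp (g * I))
    (him : ((r + A) * (r + B)).im ≤ 0) :
    β < g ∧ R ^ 2 * Real.sin (g + β) ≤ ‖(r + A) * (r + B)‖ * Real.sin (g - β) := by
  have hπ := Real.pi_pos
  have hA0 := norm_nonneg A
  have hB0 := norm_nonneg B
  -- products
  have hrr : r * r = ((R ^ 2 : ℝ) : ℂ) * exp ((2 * β : ℝ) * I) := by
    rw [hr]
    have : ((2 * β : ℝ) : ℂ) * I = β * I + β * I := by push_cast; ring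
    rw [this, exp_add]
    push_cast
    ring
  have hrA : r * A = ((R * ‖A‖ : ℝ) : ℂ) * exp ((β - g : ℝ) * I) := by
    conv_lhs => rw [hr, hA]
    have : ((β - g : ℝ) : ℂ) * I = β * I + -(g * I) := by push_cast; ring
    rw [this, exp_add]
    push_cast
    ring
  have hrB : r * B = ((R * ‖B‖ : ℝ) : ℂ) * exp ((β + g : ℝ) * I) := by
    conv_lhs => rw [hr, hB]
    have : ((β + g : ℝ) : ℂ) * I = β * I + g * I := by push_cast; ring
    rw [this, exp_add]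
    push_cast
    ring
  have hABe : A * B = ((‖A‖ * ‖B‖ : ℝ) : ℂ) := by
    conv_lhs => rw [hA, hB]
    have h1 : (‖A‖ * exp (-(g * I)) * (‖B‖ * exp (g * I)) : ℂ) =
      (‖A‖ * ‖B‖) * (exp (-(g * I)) * exp (g * I)) := by ring
    rw [h1, ← exp_add, neg_add_cancel, exp_zero, mul_one]
    push_cast
    ring
  have hexp : (r + A) * (r + B) = r * r + r * A + r * B + A * B := by ring
  have himv : ((r + A) * (r + B)).im = R ^ 2 * Real.sin (2 * β) + R * ‖A‖ * Real.sin (β - g)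
      + R * ‖B‖ * Real.sin (β + g) := by
    rw [hexp, add_im, add_im, add_im, hrr, hrA, hrB, hABe, im_mul_exp, im_mul_exp, im_mul_exp,
      ofReal_im, add_zero]
  rw [himv] at him
  have hs2 : 0 < Real.sin (2 * β) := Real.sin_pos_of_pos_of_lt_pi (by linarith) (by linarith)
  have hsβg : 0 ≤ Real.sin (β + g) := Real.sin_nonneg_of_nonneg_of_le_pi (by linarith) (by linarith)
  have hsneg : Real.sin (β - g) = -Real.sin (g - β) := by
    rw [← Real.sin_neg, neg_sub]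
  rw [hsneg] at him
  have h1 : 0 ≤ R * ‖B‖ * Real.sin (β + g) := by positivity
  have h2 : R ^ 2 * Real.sin (2 * β) ≤ R * ‖A‖ * Real.sin (g - β) := by linarith
  have h3 : R * Real.sin (2 * β) ≤ ‖A‖ * Real.sin (g - β) := by
    have e1 : R ^ 2 * Real.sin (2 * β) = R * (R * Real.sin (2 * β)) := by ring
    have e2 : R * ‖A‖ * Real.sin (g - β) = R * (‖A‖ * Real.sin (g - β)) := by ring
    rw [e1, e2] at h2
    exact le_of_mul_le_mul_left h2 hR
  have h4 : 0 < ‖A‖ * Real.sin (g - β) := lt_of_lt_of_le (mul_pos hR hs2) h3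
  have hsgβ : 0 < Real.sin (g - β) := by
    rcases hA0.lt_or_eq with h | h
    · exact (pos_iff_pos_of_mul_pos h4).1 h
    · rw [← h, zero_mul] at h4
      exact absurd h4 (lt_irrefl _)
  have hβg : β < g := by
    by_contra hcon
    have := Real.sin_nonpos_of_nonpos_of_neg_pi_le (x := g - β) (by linarith) (by linarith)
    linarith
  refine ⟨hβg, ?_⟩
  have hcgβ : 0 ≤ Real.cos (g - β) :=
    Real.cos_nonneg_of_neg_pi_div_two_le_of_le (by linarith) (by linarith)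
  have hcβg : Real.cos (β - g) = Real.cos (g - β) := by
    rw [← Real.cos_neg, neg_sub]
  have hnr : ‖r‖ = R := by
    rw [hr, norm_mul, norm_exp_ofReal_mul_I, mul_one, norm_real, Real.norm_of_nonneg hR.le]
  -- `‖r + B‖ ≥ R`
  have hrB' : R ≤ ‖r + B‖ := by
    have h5 : r + B = exp (β * I) * (R + ‖B‖ * exp ((g - β : ℝ) * I)) := by
      conv_lhs => rw [hr, hB]
      have e1 : ((g - β : ℝ) : ℂ) * I = g * I + -(β * I) := by push_cast; ring
      rw [e1, exp_add]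
      have e2 : exp (β * I) * (R + ‖B‖ * (exp (g * I) * exp (-(β * I)))) =
        R * exp (β * I) + ‖B‖ * exp (g * I) * (exp (β * I) * exp (-(β * I))) := by ring
      rw [e2, ← exp_add (β * I), add_neg_cancel, exp_zero, mul_one]
    rw [h5, norm_mul, norm_exp_ofReal_mul_I, one_mul]
    have h6 : (R + ‖B‖ * exp ((g - β : ℝ) * I) : ℂ).re = R + ‖B‖ * Real.cos (g - β) := by
      rw [add_re, ofReal_re, re_mul_exp]
    have h7 := re_le_norm (R + ‖B‖ * exp ((g - β : ℝ) * I) : ℂ)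
    rw [h6] at h7
    have h8 : 0 ≤ ‖B‖ * Real.cos (g - β) := by positivity
    linarith
  have h9 : R ^ 2 * Real.cos (2 * β) + R * ‖A‖ * Real.cos (g - β) ≤ ‖(r + A) * (r + B)‖ := by
    have h10 : (r * (r + A)).re = R ^ 2 * Real.cos (2 * β) + R * ‖A‖ * Real.cos (g - β) := by
      rw [mul_add, add_re, hrr, hrA, re_mul_exp, re_mul_exp, hcβg]
    rw [← h10]
    refine (re_le_norm _).trans ?_
    rw [norm_mul, norm_mul, hnr, mul_comm]
    exact mul_le_mul_of_nonneg_left hrB' (norm_nonneg _)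
  have h11 := mul_le_mul_of_nonneg_right h9 hsgβ.le
  refine le_trans ?_ h11
  have h12 : Real.sin (g + β) = Real.sin (g - β) * Real.cos (2 * β)
      + Real.cos (g - β) * Real.sin (2 * β) := by
    rw [← Real.sin_add]
    congr 1
    ring
  rw [h12]
  have h13 := mul_le_mul_of_nonneg_left h3 (mul_nonneg hR.le hcgβ)
  nlinarith [h13]

/-- Contradiction: `sin (g+β) sin (γ-β) - sin (γ+β) sin (g-β) = sin 2β sin (γ-g) ≥ 0`, so
`R² sin (γ+β) ≤ ‖(r+A)(r+B)‖ sin (γ-β) ≤ c^(2/k) sin (γ-β)`, against `Pol.R_ineq`. -/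
theorem NZ_AB {k c a κ : ℝ} {r s A B : ℂ} (ha : 0 < a)
    (h : Pol k c (arg r) (-(arg s)) ‖r‖ ‖s‖) (hγ : -(arg s) ≤ Real.pi / 2)
    (hκ0 : 0 ≤ κ) (hκ1 : κ < 1) (hAB : A * B = 4 * a ^ 2)
    (hB : B = κ * A + (1 - κ) * (4 * a ^ 2 / s)) (hre : 0 ≤ (A + B).re)
    (him : ((r + A) * (r + B)).im ≤ 0) (hk : ‖(r + A) * (r + B)‖ ≤ c ^ (2 / k)) : False := by
  have hs : s ≠ 0 := norm_pos_iff.1 h.hS
  obtain ⟨g, hg0, hgγ, hAe, hBe, hA0, hB0⟩ := NZ_g ha hs rfl h.γ0 hγ hκ0 hκ1 hAB hB hre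
  have hr : r = (‖r‖ : ℝ) * exp (arg r * I) := (norm_mul_exp_arg_mul_I r).symm
  obtain ⟨hβg, hlow⟩ := NZ_lower hr h.hR h.β0 h.β1 hg0 (hgγ.trans hγ) hAe hBe him
  have hβγ : arg r < -(arg s) := hβg.trans_le hgγ
  have hR := h.R_ineq hβγ hγ
  set β : ℝ := arg r with hβ
  set γ : ℝ := -(arg s) with hγd
  have hβ0 := h.β0
  have hβ1 := h.β1
  have hπ := Real.pi_pos
  have hsg : 0 < Real.sin (g - β) := Real.sin_pos_of_pos_of_lt_pi (by linarith) (by linarith)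
  have hsγ : 0 < Real.sin (γ - β) := Real.sin_pos_of_pos_of_lt_pi (by linarith) (by linarith)
  have hs2 : 0 < Real.sin (2 * β) := Real.sin_pos_of_pos_of_lt_pi (by linarith) (by linarith)
  have hsγg : 0 ≤ Real.sin (γ - g) := Real.sin_nonneg_of_nonneg_of_le_pi (by linarith) (by linarith)
  have hid : Real.sin (g + β) * Real.sin (γ - β) - Real.sin (γ + β) * Real.sin (g - β)
      = Real.sin (2 * β) * Real.sin (γ - g) := by
    rw [Real.sin_add, Real.sin_sub, Real.sin_add, Real.sin_sub, Real.sin_sub, Real.sin_two_mul]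
    ring
  have h1 : Real.sin (γ + β) * Real.sin (g - β) ≤ Real.sin (g + β) * Real.sin (γ - β) := by
    have := mul_nonneg hs2.le hsγg
    linarith
  have hR2 : 0 ≤ ‖r‖ ^ 2 := by positivity
  have h2 := mul_le_mul_of_nonneg_left h1 hR2
  have h3 := mul_le_mul_of_nonneg_right hlow hsγ.le
  have h4 := mul_le_mul_of_nonneg_right hk (mul_nonneg hsg.le hsγ.le)
  have h5 := mul_lt_mul_of_pos_right hR hsg
  have e1 : ‖r‖ ^ 2 * (Real.sin (g + β) * Real.sin (γ - β)) =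
    ‖r‖ ^ 2 * Real.sin (g + β) * Real.sin (γ - β) := by ring
  have e2 : ‖r‖ ^ 2 * (Real.sin (γ + β) * Real.sin (g - β)) =
    ‖r‖ ^ 2 * Real.sin (γ + β) * Real.sin (g - β) := by ring
  have e3 : ‖(r + A) * (r + B)‖ * Real.sin (g - β) * Real.sin (γ - β) =
    ‖(r + A) * (r + B)‖ * (Real.sin (g - β) * Real.sin (γ - β)) := by ring
  have e4 : c ^ (2 / k) * (Real.sin (g - β) * Real.sin (γ - β)) =
    c ^ (2 / k) * Real.sin (γ - β) * Real.sin (g - β) := by ring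
  rw [e1, e2] at h2
  rw [e3] at h3
  rw [e4] at h4
  linarith

private theorem NZ_core {k c a κ : ℝ} {r s sm X E E' : ℂ} (ha : 0 < a)
    (h : Pol k c (arg r) (-(arg s)) ‖r‖ ‖s‖) (hγ : -(arg s) ≤ Real.pi / 2)
    (hκ0 : 0 ≤ κ) (hκ1 : κ < 1) (hEE : E * E' = 1) (hEX : E + E' = 2 * (X / r))
    (hE : s * E - 2 * a = κ * (s * E' - 2 * a))
    (hsm : sm ^ 2 = r ^ 2 + 4 * a * X + 4 * a ^ 2) (him : (sm ^ 2).im ≤ 0) (hsmk : ‖sm‖ ^ k ≤ c)
    (hre : 0 ≤ (X / r).re) : False := by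
  have hs : s ≠ 0 := norm_pos_iff.1 h.hS
  have hr : r ≠ 0 := norm_pos_iff.1 h.hR
  have hprod : (r + 2 * a * E') * (r + 2 * a * E) = sm ^ 2 := by
    rw [hsm]
    have e1 : (r + 2 * a * E') * (r + 2 * a * E) =
      r ^ 2 + 2 * a * r * (E + E') + 4 * a ^ 2 * (E * E') := by ring
    rw [e1, hEE, hEX]
    field_simp
    ring
  refine NZ_AB (A := 2 * a * E') (B := 2 * a * E) (κ := κ) ha h hγ hκ0 hκ1 ?_ ?_ ?_ ?_ ?_
  · have e1 : (2 * a * E' * (2 * a * E) : ℂ) = 4 * a ^ 2 * (E * E') := by ring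
    rw [e1, hEE, mul_one]
  · have e1 : (2 * a * E : ℂ) = 2 * a / s * (s * E - 2 * a) + 4 * a ^ 2 / s := by
      field_simp
      ring
    rw [e1, hE]
    field_simp
    ring
  · have e1 : (2 * a * E' + 2 * a * E : ℂ) = ((4 * a : ℝ) : ℂ) * (X / r) := by
      have : (2 * a * E' + 2 * a * E : ℂ) = 2 * a * (E + E') := by ring
      rw [this, hEX]
      push_cast
      ring
    rw [e1, re_ofReal_mul]
    positivity
  · rw [hprod]
    exact him
  · rw [hprod, norm_pow]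
    have hk0 : 0 < k := by linarith [h.hk]
    have e1 : ‖sm‖ ^ 2 = (‖sm‖ ^ k) ^ (2 / k) := by
      rw [← Real.rpow_mul (norm_nonneg _), mul_div_cancel₀ _ hk0.ne', ← Real.rpow_natCast]
      norm_num
    rw [e1]
    exact Real.rpow_le_rpow (Real.rpow_nonneg (norm_nonneg _) _) hsmk (by positivity)

/-- Lemma NZ.  Suppose `1 + q² = -u`, `u ≥ 0`, `w = sqrt (1+u) ≥ 1`, so `q = -iw` or `q = iw`;
`κ = (w-1)/(w+1)`.  With `E = (X+iY)/r`, `1/E = (X-iY)/r`, `X' = (s/r)X - 2a`, `Y' = (s/r) Y`,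
`X' + iY' = sE - 2a`, `X' - iY' = s/E - 2a`.  If `q = -iw` then `X' + iY' = κ (X' - iY')`; take
`A = 2a/E`, `B = 2aE`; if `q = iw` exchange `A` and `B`.  `(r+A)(r+B) = r² + 4aX + 4a² = sm²`,
`A + B = 4a X/r`; `‖sm²‖ = (‖sm‖^k)^(2/k) ≤ c^(2/k)`.  Apply `NZ_AB`. -/
theorem NZ {k c a : ℝ} {r s sm X Y : ℂ} (ha : 0 < a)
    (h : Pol k c (arg r) (-(arg s)) ‖r‖ ‖s‖) (hγ : -(arg s) ≤ Real.pi / 2)
    (hXY : X ^ 2 + Y ^ 2 = r ^ 2) (hY : Y ≠ 0)
    (hsm : sm ^ 2 = r ^ 2 + 4 * a * X + 4 * a ^ 2) (him : (sm ^ 2).im ≤ 0) (hsmk : ‖sm‖ ^ k ≤ c)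
    (hre : 0 ≤ (X / r).re) :
    1 + ((s / r * X - 2 * a) / (s / r * Y)) ^ 2 ∈ slitPlane := by
  have hs : s ≠ 0 := norm_pos_iff.1 h.hS
  have hr : r ≠ 0 := norm_pos_iff.1 h.hR
  by_contra hcon
  rw [mem_slitPlane_iff, not_or, not_lt, not_not] at hcon
  obtain ⟨hc1, hc2⟩ := hcon
  set q : ℂ := (s / r * X - 2 * a) / (s / r * Y) with hq
  have hY' : s / r * Y ≠ 0 := mul_ne_zero (div_ne_zero hs hr) hY
  have hX' : s / r * X - 2 * a = q * (s / r * Y) := by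
    rw [hq, div_mul_cancel₀ _ hY']
  -- the real number `w`
  obtain ⟨w, hw1, hw⟩ : ∃ w : ℝ, 1 ≤ w ∧ q ^ 2 = -((w : ℂ) ^ 2) := by
    refine ⟨Real.sqrt (1 - (1 + q ^ 2).re), ?_, ?_⟩
    · rw [Real.le_sqrt' one_pos]
      linarith
    · have h1 : (1 + q ^ 2) = (((1 + q ^ 2).re : ℝ) : ℂ) := by
        apply Complex.ext
        · rw [ofReal_re]
        · rw [ofReal_im, hc2]
      rw [← ofReal_pow, Real.sq_sqrt (by linarith)]
      push_cast
      rw [← h1]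
      ring
  have hfac : (q + I * w) * (q - I * w) = 0 := by
    have : (q + I * w) * (q - I * w) = q ^ 2 - I ^ 2 * (w : ℂ) ^ 2 := by ring
    rw [this, hw, I_sq]
    ring
  have hw0 : (0 : ℝ) < w + 1 := by linarith
  have hwc : ((w : ℂ) + 1) ≠ 0 := by
    have : ((w + 1 : ℝ) : ℂ) ≠ 0 := ofReal_ne_zero.2 hw0.ne'
    push_cast at this
    exact this
  have hκ0 : 0 ≤ (w - 1) / (w + 1) := div_nonneg (by linarith) hw0.le
  have hκ1 : (w - 1) / (w + 1) < 1 := by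
    rw [div_lt_one hw0]
    linarith
  have hr2 : r ^ 2 ≠ 0 := pow_ne_zero _ hr
  have hEE : (X + Y * I) / r * ((X - Y * I) / r) = 1 := by
    rw [div_mul_div_comm, div_eq_one_iff_eq (mul_ne_zero hr hr)]
    have : (X + Y * I) * (X - Y * I) = X ^ 2 - Y ^ 2 * I ^ 2 := by ring
    rw [this, I_sq]
    linear_combination hXY
  have hsum : (X + Y * I) / r + (X - Y * I) / r = 2 * (X / r) := by ring
  have ep : s * ((X + Y * I) / r) - 2 * a = (q + I) * (s / r * Y) := by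
    rw [add_mul, ← hX']
    ring
  have em : s * ((X - Y * I) / r) - 2 * a = (q - I) * (s / r * Y) := by
    rw [sub_mul, ← hX']
    ring
  rcases mul_eq_zero.1 hfac with h1 | h1
  · -- `q = -i w`
    have hqe : q = -(I * w) := eq_neg_of_add_eq_zero_left h1
    refine NZ_core (κ := (w - 1) / (w + 1)) (X := X) (E := (X + Y * I) / r) (E' := (X - Y * I) / r)
      ha h hγ hκ0 hκ1 hEE hsum ?_ hsm him hsmk hre
    rw [ep, em, hqe]
    generalize s / r * Y = Y1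
    push_cast
    rw [← mul_assoc]
    congr 1
    rw [div_mul_eq_mul_div, eq_div_iff hwc]
    ring
  · -- `q = i w`
    have hqe : q = I * w := sub_eq_zero.1 h1
    refine NZ_core (κ := (w - 1) / (w + 1)) (X := X) (E := (X - Y * I) / r) (E' := (X + Y * I) / r)
      ha h hγ hκ0 hκ1 (by rw [mul_comm]; exact hEE) (by rw [add_comm]; exact hsum) ?_ hsm him hsmk hre
    rw [ep, em, hqe]
    generalize s / r * Y = Y1
    push_cast
    rw [← mul_assoc]
    congr 1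
    rw [div_mul_eq_mul_div, eq_div_iff hwc]
    ring

end EQ2K
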