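import Pool.Agent.Lib.MP_226de1_co.P.KTrig

/-!
# MP_226de1_co, `1 ≤ k ≤ 2`: `|s_n|^k ≤ c` and `Re s_{n+1} > 0`
-/

set_option autoImplicit false

namespace EQ2K

open Complex

/-- `cos φ ^ p ≤ cos (p φ)` for `|φ| < π/2`, `0 < p ≤ 1` (for `φ ≥ 0`: `log cos (p φ) - p log cos φ`
has derivative `p (tan φ - tan (p φ)) ≥ 0`; even in `φ`) -/
theorem cos_rpow_le {p φ : ℝ} (hp : 0 < p) (hp1 : p ≤ 1) (hφ : |φ| < Real.pi / 2) :
    Real.cos φ ^ p ≤ Real.cos (p * φ) := by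
  have hφ' := abs_lt.mp hφ
  have hcos : 0 ≤ Real.cos φ := Real.cos_nonneg_of_mem_Icc ⟨hφ'.1.le, hφ'.2.le⟩
  have h1 : Real.cos φ ^ p ≤ 1 + p * (Real.cos φ - 1) := by
    have := _root_.rpow_one_add_le_one_add_mul_self (s := Real.cos φ - 1) (by linarith) hp.le hp1
    simpa using this
  have h2 := strictConcaveOn_cos_Icc.concaveOn.2 (x := φ) (y := 0)
    ⟨hφ'.1.le, hφ'.2.le⟩ ⟨by linarith [Real.pi_pos], by linarith [Real.pi_pos]⟩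
    hp.le (sub_nonneg.mpr hp1) (by ring)
  simp only [smul_eq_mul, mul_zero, add_zero, Real.cos_zero, mul_one] at h2
  linarith

/-- `‖z - 1‖ ≤ 1` gives `‖z‖ ≤ 2 cos φ`, `φ = arg z`, so `‖z‖^p ≤ 2 cos^p φ ≤ 2 c cos (p φ)`, i.e.
`‖c - z^p‖² = c² - 2 c ‖z‖^p cos (pφ) + ‖z‖^(2p) ≤ c²`.  (`z = 0`: `0^p = 0`.)
Use: `z = 1 - D_{n-1}`, `p = k/2`: `|D_{n-1}| ≤ 1` gives `|s_n|^k ≤ c`. -/
theorem far_le {z : ℂ} {p c : ℝ} (hp : 0 < p) (hp1 : p ≤ 1) (hc : 1 ≤ c) (hz : ‖z - 1‖ ≤ 1) :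
    ‖(c : ℂ) - z ^ (p : ℂ)‖ ≤ c := by
  have hc0 : 0 < c := by linarith
  by_cases hz0 : z = 0
  · subst hz0
    rw [Complex.zero_cpow (by exact_mod_cast hp.ne'), sub_zero]
    simp [abs_of_pos hc0]
  have hn : 0 < ‖z‖ := norm_pos_iff.mpr hz0
  -- `‖z‖ ≤ 2 cos φ`
  have h1 : ‖z‖ ≤ 2 * Real.cos (arg z) := by
    have e1 : ‖z - 1‖ ^ 2 ≤ 1 := by
      have := norm_nonneg (z - 1)
      nlinarith
    rw [← Complex.normSq_eq_norm_sq, Complex.normSq_apply] at e1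
    simp only [Complex.sub_re, Complex.one_re, Complex.sub_im, Complex.one_im, sub_zero] at e1
    have e2 : ‖z‖ ^ 2 = z.re * z.re + z.im * z.im := by
      rw [← Complex.normSq_eq_norm_sq, Complex.normSq_apply]
    have e3 : ‖z‖ * Real.cos (arg z) = z.re := Complex.norm_mul_cos_arg z
    have e4 : ‖z‖ * ‖z‖ ≤ ‖z‖ * (2 * Real.cos (arg z)) := by nlinarith
    exact le_of_mul_le_mul_left e4 hn
  have hcos : 0 < Real.cos (arg z) := by linarith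
  have harg : |arg z| < Real.pi / 2 := by
    have := (Complex.abs_arg_lt_pi_div_two_iff (z := z)).mpr (Or.inl ?_)
    · exact this
    · rw [← Complex.norm_mul_cos_arg z]
      positivity
  have h2 : ‖z‖ ^ p ≤ 2 * Real.cos (p * arg z) := by
    calc ‖z‖ ^ p ≤ (2 * Real.cos (arg z)) ^ p := Real.rpow_le_rpow hn.le h1 hp.le
      _ = 2 ^ p * Real.cos (arg z) ^ p := Real.mul_rpow (by norm_num) hcos.le
      _ ≤ 2 * Real.cos (p * arg z) := by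
          apply mul_le_mul _ (cos_rpow_le hp hp1 harg) (Real.rpow_nonneg hcos.le _) (by norm_num)
          calc (2 : ℝ) ^ p ≤ 2 ^ (1 : ℝ) := Real.rpow_le_rpow_of_exponent_le (by norm_num) hp1
            _ = 2 := Real.rpow_one 2
  have hA : 0 ≤ ‖z‖ ^ p := Real.rpow_nonneg hn.le _
  have hcos2 : 0 ≤ Real.cos (p * arg z) := by linarith
  have h3 : ‖z‖ ^ p ≤ 2 * c * Real.cos (p * arg z) := by nlinarith
  have hsq : ‖(c : ℂ) - z ^ (p : ℂ)‖ ^ 2 ≤ c ^ 2 := by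
    rw [← Complex.normSq_eq_norm_sq, Complex.normSq_apply]
    simp only [Complex.sub_re, Complex.ofReal_re, Complex.sub_im, Complex.ofReal_im]
    rw [Complex.cpow_ofReal_re, Complex.cpow_ofReal_im, mul_comm (arg z) p]
    have := Real.sin_sq_add_cos_sq (p * arg z)
    have e : (c - ‖z‖ ^ p * Real.cos (p * arg z)) * (c - ‖z‖ ^ p * Real.cos (p * arg z))
        + (0 - ‖z‖ ^ p * Real.sin (p * arg z)) * (0 - ‖z‖ ^ p * Real.sin (p * arg z))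
        = c ^ 2 + ‖z‖ ^ p * (‖z‖ ^ p - 2 * c * Real.cos (p * arg z))
          + (‖z‖ ^ p) ^ 2 * (Real.sin (p * arg z) ^ 2 + Real.cos (p * arg z) ^ 2 - 1) := by ring
    rw [e, this, sub_self, mul_zero, add_zero]
    have : ‖z‖ ^ p * (‖z‖ ^ p - 2 * c * Real.cos (p * arg z)) ≤ 0 :=
      mul_nonpos_of_nonneg_of_nonpos hA (by linarith)
    linarith
  exact le_of_sq_le_sq hsq hc0.le

/-- `Re (sm² conj r) = ‖r‖² Re r + 4a Re (X conj r) + 4a² Re r ≥ ‖r‖² Re r`, and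
`Re (sm² conj r) ≤ ‖sm‖² ‖r‖` -/
theorem sm_lower {a : ℝ} {r sm X : ℂ} (ha : 0 < a) (hr : 0 ≤ r.re)
    (hsm : sm ^ 2 = r ^ 2 + 4 * a * X + 4 * a ^ 2) (hre : 0 ≤ (X / r).re) :
    ‖r‖ * r.re ≤ ‖sm‖ ^ 2 := by
  by_cases hr0 : r = 0
  · subst hr0
    simp
    
  have hn : 0 < ‖r‖ := norm_pos_iff.mpr hr0
  have h1 : (sm ^ 2 * (starRingEnd ℂ) r).re ≤ ‖sm‖ ^ 2 * ‖r‖ := by
    calc (sm ^ 2 * (starRingEnd ℂ) r).re ≤ ‖sm ^ 2 * (starRingEnd ℂ) r‖ := Complex.re_le_norm _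
      _ = ‖sm‖ ^ 2 * ‖r‖ := by rw [norm_mul, norm_pow, Complex.norm_conj]
  have h2 : (sm ^ 2 * (starRingEnd ℂ) r).re
      = ‖r‖ ^ 2 * r.re + 4 * a * (‖r‖ ^ 2 * (X / r).re) + 4 * a ^ 2 * r.re := by
    have e1 : sm ^ 2 * (starRingEnd ℂ) r
        = ((‖r‖ ^ 2 : ℝ) : ℂ) * r + ((4 * a * ‖r‖ ^ 2 : ℝ) : ℂ) * (X / r)
          + ((4 * a ^ 2 : ℝ) : ℂ) * (starRingEnd ℂ) r := by
      have hc : r * (starRingEnd ℂ) r = ((‖r‖ ^ 2 : ℝ) : ℂ) := by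
        rw [Complex.mul_conj, Complex.normSq_eq_norm_sq]
      rw [hsm]
      push_cast
      push_cast at hc
      rw [← hc]
      field_simp
    rw [e1]
    simp only [Complex.add_re, Complex.re_ofReal_mul, Complex.conj_re]
    ring
  have h3 : 0 ≤ 4 * a * (‖r‖ ^ 2 * (X / r).re) := by positivity
  have h4 : 0 ≤ 4 * a ^ 2 * r.re := by positivity
  have h5 : ‖r‖ * (‖r‖ * r.re) ≤ ‖r‖ * ‖sm‖ ^ 2 := by nlinarith
  exact le_of_mul_le_mul_left h5 hn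

/-- `Re s_{n+1} > 0`: if `π/2 ≤ γ` then `Pol.S_ineq` gives `c^(2/k) < ‖r‖² cos β = ‖r‖ Re r ≤ ‖sm‖²`,
but `‖sm‖² = (‖sm‖^k)^(2/k) ≤ c^(2/k)`. -/
theorem reS {k c a : ℝ} {r s sm X : ℂ} (ha : 0 < a)
    (h : Pol k c (arg r) (-(arg s)) ‖r‖ ‖s‖)
    (hsm : sm ^ 2 = r ^ 2 + 4 * a * X + 4 * a ^ 2) (hsmk : ‖sm‖ ^ k ≤ c)
    (hre : 0 ≤ (X / r).re) : -(arg s) < Real.pi / 2 := by
  by_contra hcon
  push Not at hcon
  have h1 := Pol.S_ineq h hcon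
  have hk0 : 0 < k := lt_of_lt_of_le one_pos h.hk
  have hcos : 0 < Real.cos (arg r) :=
    Real.cos_pos_of_mem_Ioo ⟨by linarith [h.β0, Real.pi_pos], h.β1⟩
  have hre' : ‖r‖ * Real.cos (arg r) = r.re := Complex.norm_mul_cos_arg r
  have hr : 0 ≤ r.re := by
    rw [← hre']
    exact mul_nonneg (norm_nonneg _) hcos.le
  have h2 := sm_lower ha hr hsm hre
  have h3 : ‖sm‖ ^ 2 ≤ c ^ (2 / k) := by
    have e1 : (‖sm‖ ^ k) ^ (2 / k) = ‖sm‖ ^ 2 := by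
      rw [← Real.rpow_mul (norm_nonneg _), mul_div_cancel₀ _ hk0.ne']
      norm_num
    rw [← e1]
    exact Real.rpow_le_rpow (Real.rpow_nonneg (norm_nonneg _) _) hsmk (by positivity)
  have h4 : ‖r‖ ^ 2 * Real.cos (arg r) = ‖r‖ * r.re := by
    rw [← hre']
    ring
  linarith

end EQ2K
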