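import Mathlib

/-!
# MP_226de1_co, `1 ≤ k ≤ 2`: trigonometry of one chord

A chord through the centre `p_n` has the parts `r = R e^{iβ}` and `s = S e^{-iγ}`, `r^k + s^k = c`.
`Pol` collects the polar data.
-/

set_option autoImplicit false

namespace EQ2K

open Real Set

/-- Monotonicity: `x ↦ log (sin (p x)) / p - log (sin (q x)) / q` has derivative
`cot (p x) - cot (q x) ≥ 0` for `0 < p x ≤ q x < π`
(`cot u - cot v = sin (v - u) / (sin u sin v)`). -/
theorem ktrig_mono {p q x y : ℝ} (hp : 0 < p) (hpq : p ≤ q) (hx : 0 < x) (hxy : x ≤ y)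
    (hy : q * y < π) :
    log (sin (p * x)) / p - log (sin (q * x)) / q ≤
      log (sin (p * y)) / p - log (sin (q * y)) / q := by
  have hq : 0 < q := lt_of_lt_of_le hp hpq
  have hsin : ∀ z ∈ Icc x y, 0 < sin (p * z) ∧ 0 < sin (q * z) := by
    intro z hz
    have hz0 : 0 < z := lt_of_lt_of_le hx hz.1
    have h1 : q * z ≤ q * y := mul_le_mul_of_nonneg_left hz.2 hq.le
    have h2 : p * z ≤ q * z := mul_le_mul_of_nonneg_right hpq hz0.le
    exact ⟨sin_pos_of_pos_of_lt_pi (mul_pos hp hz0) (by linarith),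
      sin_pos_of_pos_of_lt_pi (mul_pos hq hz0) (by linarith)⟩
  have hder : ∀ z ∈ Icc x y, HasDerivAt
      (fun z => log (sin (p * z)) / p - log (sin (q * z)) / q)
      (cos (p * z) / sin (p * z) - cos (q * z) / sin (q * z)) z := by
    intro z hz
    obtain ⟨h1, h2⟩ := hsin z hz
    have e1 : HasDerivAt (fun z => log (sin (p * z)) / p)
        (cos (p * z) * (p * 1) / sin (p * z) / p) z :=
      ((((hasDerivAt_id z).const_mul p).sin).log h1.ne').div_const p
    have e2 : HasDerivAt (fun z => log (sin (q * z)) / q)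
        (cos (q * z) * (q * 1) / sin (q * z) / q) z :=
      ((((hasDerivAt_id z).const_mul q).sin).log h2.ne').div_const q
    refine (e1.sub e2).congr_deriv ?_
    field_simp
  have hmono : MonotoneOn (fun z => log (sin (p * z)) / p - log (sin (q * z)) / q)
      (Icc x y) := by
    apply monotoneOn_of_deriv_nonneg (convex_Icc x y)
    · intro z hz
      exact (hder z hz).continuousAt.continuousWithinAt
    · intro z hz
      rw [interior_Icc] at hz
      exact (hder z (Ioo_subset_Icc_self hz)).differentiableAt.differentiableWithinAt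
    · intro z hz
      rw [interior_Icc] at hz
      have hz' := Ioo_subset_Icc_self hz
      rw [(hder z hz').deriv]
      obtain ⟨h1, h2⟩ := hsin z hz'
      have hz0 : 0 < z := lt_of_lt_of_le hx hz'.1
      have h4 : 0 ≤ sin (q * z - p * z) := by
        apply sin_nonneg_of_nonneg_of_le_pi
        · have := mul_le_mul_of_nonneg_right hpq hz0.le
          linarith
        · have h5 : q * z ≤ q * y := mul_le_mul_of_nonneg_left hz'.2 hq.le
          have h6 : 0 < p * z := mul_pos hp hz0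
          linarith
      rw [sin_sub] at h4
      rw [div_sub_div _ _ h1.ne' h2.ne']
      apply div_nonneg _ (mul_pos h1 h2).le
      nlinarith [h4]
  exact hmono ⟨le_rfl, hxy⟩ ⟨hxy, le_rfl⟩ hxy

/-- polar data of a chord: near part `R e^{iβ}`, far part `S e^{-iγ}`, `r^k + s^k = c` -/
structure Pol (k c β γ R S : ℝ) : Prop where
  hk : 1 ≤ k
  hk2 : k ≤ 2
  hc : 0 < c
  hR : 0 < R
  hS : 0 < S
  β0 : 0 < β
  β1 : β < π / 2
  γ0 : 0 < γ
  γ1 : k * γ < π
  re : R ^ k * cos (k * β) + S ^ k * cos (k * γ) = c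
  im : R ^ k * sin (k * β) = S ^ k * sin (k * γ)

variable {k c β γ R S : ℝ}

private theorem Pol.log_im (h : Pol k c β γ R S) :
    log R + log (sin (k * β)) / k = log S + log (sin (k * γ)) / k := by
  have hk0 : 0 < k := lt_of_lt_of_le one_pos h.hk
  have hkβ : k * β < π := by
    have h1 : k * β ≤ 2 * β := mul_le_mul_of_nonneg_right h.hk2 h.β0.le
    have := h.β1
    linarith
  have h1 : 0 < sin (k * β) := sin_pos_of_pos_of_lt_pi (mul_pos hk0 h.β0) hkβ
  have h2 : 0 < sin (k * γ) := sin_pos_of_pos_of_lt_pi (mul_pos hk0 h.γ0) h.γ1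
  have hlog := congrArg log h.im
  rw [log_mul (rpow_pos_of_pos h.hR k).ne' h1.ne', log_mul (rpow_pos_of_pos h.hS k).ne' h2.ne',
    log_rpow h.hR, log_rpow h.hS] at hlog
  field_simp
  linarith

/-- `R^k sin (k (β + γ)) = c sin (k γ)`: `sin (kβ+kγ) = sin kβ cos kγ + cos kβ sin kγ`, `re`, `im` -/
theorem Pol.sum (h : Pol k c β γ R S) : R ^ k * sin (k * (β + γ)) = c * sin (k * γ) := by
  have h1 := h.re
  have h2 := h.im
  rw [mul_add, sin_add]
  linear_combination cos (k * γ) * h2 + sin (k * γ) * h1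

/-- `sin (k (β+γ)) > 0` by `Pol.sum` and `0 < k (β+γ) < 2 π` -/
theorem Pol.sum_lt (h : Pol k c β γ R S) : k * (β + γ) < π := by
  have hk0 : 0 < k := lt_of_lt_of_le one_pos h.hk
  have hRk : 0 < R ^ k := rpow_pos_of_pos h.hR k
  have hsg : 0 < sin (k * γ) := sin_pos_of_pos_of_lt_pi (mul_pos hk0 h.γ0) h.γ1
  have hs := h.sum
  have hpos : 0 < R ^ k * sin (k * (β + γ)) := by
    rw [hs]
    exact mul_pos h.hc hsg
  have hsin : 0 < sin (k * (β + γ)) := by
    rcases pos_iff_pos_of_mul_pos hpos with hh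
    exact hh.mp hRk
  by_contra hge
  rw [not_lt] at hge
  have hub : k * (β + γ) ≤ 2 * π := by
    have h1 : k * β ≤ 2 * (π / 2) := mul_le_mul h.hk2 h.β1.le h.β0.le (by norm_num)
    have h2 := h.γ1
    rw [mul_add]
    linarith
  have h3 : 0 ≤ sin (k * (β + γ) - π) :=
    sin_nonneg_of_nonneg_of_le_pi (by linarith) (by linarith)
  rw [sin_sub_pi] at h3
  linarith

/-- if `γ ≤ β` then `S sin γ ≤ R sin β`: `ktrig_mono` with `p = 1`, `q = k`, `x = γ`, `y = β`:
`log sin γ - (1/k) log sin kγ ≤ log sin β - (1/k) log sin kβ`, and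
`S^k sin kγ = R^k sin kβ` gives `log S + (1/k) log sin kγ = log R + (1/k) log sin kβ`; add. -/
theorem Pol.far_sin_le (h : Pol k c β γ R S) (hγ : γ ≤ β) : S * sin γ ≤ R * sin β := by
  have hk0 : 0 < k := lt_of_lt_of_le one_pos h.hk
  have hkβ : k * β < π := by
    have h1 : k * β ≤ 2 * β := mul_le_mul_of_nonneg_right h.hk2 h.β0.le
    have := h.β1
    linarith
  have hm := ktrig_mono one_pos h.hk h.γ0 hγ hkβ
  simp only [one_mul, div_one] at hm
  have him := h.log_im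
  have hsβ : 0 < sin β := sin_pos_of_pos_of_lt_pi h.β0 (by linarith [h.β1, pi_pos])
  have hsγ : 0 < sin γ := sin_pos_of_pos_of_lt_pi h.γ0 (by linarith [h.β1, pi_pos])
  rw [← log_le_log_iff (mul_pos h.hS hsγ) (mul_pos h.hR hsβ), log_mul h.hS.ne' hsγ.ne',
    log_mul h.hR.ne' hsβ.ne']
  linarith

/-- if `β ≤ γ < π/2` then `S^2 sin 2γ ≤ R^2 sin 2β`: `ktrig_mono` with `p = k`, `q = 2`, `x = β`,
`y = γ`:  `(1/k) log sin kβ - (1/2) log sin 2β ≤ (1/k) log sin kγ - (1/2) log sin 2γ`, and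
`log S + (1/k) log sin kγ = log R + (1/k) log sin kβ`; add. -/
theorem Pol.sq_sin_le (h : Pol k c β γ R S) (hγ : β ≤ γ) (hγ2 : γ < π / 2) :
    S ^ 2 * sin (2 * γ) ≤ R ^ 2 * sin (2 * β) := by
  have hk0 : 0 < k := lt_of_lt_of_le one_pos h.hk
  have hm := ktrig_mono hk0 h.hk2 h.β0 hγ (by linarith : 2 * γ < π)
  have him := h.log_im
  have hsβ : 0 < sin (2 * β) :=
    sin_pos_of_pos_of_lt_pi (by linarith [h.β0]) (by linarith [h.β1])
  have hsγ : 0 < sin (2 * γ) :=
    sin_pos_of_pos_of_lt_pi (by linarith [h.γ0]) (by linarith)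
  have hS2 : 0 < S ^ 2 := by have := h.hS; positivity
  have hR2 : 0 < R ^ 2 := by have := h.hR; positivity
  rw [← log_le_log_iff (mul_pos hS2 hsγ) (mul_pos hR2 hsβ), log_mul hS2.ne' hsγ.ne',
    log_mul hR2.ne' hsβ.ne', log_pow, log_pow]
  push_cast
  linarith

/-- `R^2 sin 2β + 2 R S sin β cos γ - S^2 sin 2γ ≥ 0` for `γ ≤ π/2`.  If `γ ≤ β`: the last two terms are
`2 S cos γ (R sin β - S sin γ) ≥ 0`.  If `β ≤ γ < π/2`: the outer terms are `≥ 0` (`sq_sin_le`).
If `γ = π/2`: clear (`cos γ = 0`, `sin 2γ = 0`). -/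
theorem Pol.main_ineq (h : Pol k c β γ R S) (hγ : γ ≤ π / 2) :
    0 ≤ R ^ 2 * sin (2 * β) + 2 * (R * S) * (sin β * cos γ) - S ^ 2 * sin (2 * γ) := by
  have hk0 : 0 < k := lt_of_lt_of_le one_pos h.hk
  have hR := h.hR
  have hS := h.hS
  have hsβ : 0 < sin β := sin_pos_of_pos_of_lt_pi h.β0 (by linarith [h.β1, pi_pos])
  have hs2β : 0 < sin (2 * β) :=
    sin_pos_of_pos_of_lt_pi (by linarith [h.β0]) (by linarith [h.β1])
  have hcγ : 0 ≤ cos γ := cos_nonneg_of_neg_pi_div_two_le_of_le (by linarith [h.γ0, pi_pos]) hγ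
  rcases le_or_gt γ β with hc | hc
  · have h1 := h.far_sin_le hc
    have h2 : 0 ≤ 2 * (S * cos γ) * (R * sin β - S * sin γ) := by
      apply mul_nonneg
      · positivity
      · linarith
    have h3 : 0 ≤ R ^ 2 * sin (2 * β) := by positivity
    rw [sin_two_mul γ]
    linarith [h2, h3]
  · rcases hγ.lt_or_eq with hlt | heq
    · have h1 := h.sq_sin_le hc.le hlt
      have h2 : 0 ≤ 2 * (R * S) * (sin β * cos γ) := by positivity
      linarith
    · have h1 : cos γ = 0 := by rw [heq, cos_pi_div_two]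
      have h2 : sin (2 * γ) = 0 := by rw [sin_two_mul, h1, mul_zero]
      rw [h1, h2]
      have h3 : 0 ≤ R ^ 2 * sin (2 * β) := by positivity
      linarith

/-- `c^(2/k) sin² γ ≤ R² sin² (γ+β)`: `ktrig_mono` with `p = 1`, `q = k`, `x = γ`, `y = γ + β`
(`k (γ+β) < π`, `sum_lt`): `log sin γ - (1/k) log sin kγ ≤ log sin (γ+β) - (1/k) log sin k(γ+β)` and
`k log R + log sin k(γ+β) = log c + log sin kγ` (`sum`); so
`(1/k) log c + log sin γ ≤ log R + log sin (γ+β)`. -/
theorem Pol.key (h : Pol k c β γ R S) :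
    c ^ (2 / k) * sin γ ^ 2 ≤ R ^ 2 * sin (γ + β) ^ 2 := by
  have hk0 : 0 < k := lt_of_lt_of_le one_pos h.hk
  have hsum := h.sum
  have hsumlt := h.sum_lt
  have hm := ktrig_mono one_pos h.hk h.γ0 (by linarith [h.β0] : γ ≤ β + γ) hsumlt
  simp only [one_mul, div_one] at hm
  have hβγ : β + γ < π := by
    have h1 : β + γ ≤ k * (β + γ) :=
      le_mul_of_one_le_left (by linarith [h.β0, h.γ0]) h.hk
    linarith
  have hsγ : 0 < sin γ := sin_pos_of_pos_of_lt_pi h.γ0 (by linarith [h.β0])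
  have hsβγ : 0 < sin (β + γ) := sin_pos_of_pos_of_lt_pi (by linarith [h.β0, h.γ0]) hβγ
  have hskγ : 0 < sin (k * γ) := sin_pos_of_pos_of_lt_pi (mul_pos hk0 h.γ0) h.γ1
  have hsk : 0 < sin (k * (β + γ)) :=
    sin_pos_of_pos_of_lt_pi (mul_pos hk0 (by linarith [h.β0, h.γ0])) hsumlt
  have hRk : 0 < R ^ k := rpow_pos_of_pos h.hR k
  have hlog := congrArg log hsum
  rw [log_mul hRk.ne' hsk.ne', log_mul h.hc.ne' hskγ.ne', log_rpow h.hR] at hlog
  have hlog2 : log R + log (sin (k * (β + γ))) / k = log c / k + log (sin (k * γ)) / k := by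
    field_simp
    linarith
  have hc2 : 0 < c ^ (2 / k) := rpow_pos_of_pos h.hc _
  have hR2 : 0 < R ^ 2 := by have := h.hR; positivity
  have e : 2 / k * log c = 2 * (log c / k) := by ring
  rw [add_comm γ β]
  rw [← log_le_log_iff (mul_pos hc2 (pow_pos hsγ 2)) (mul_pos hR2 (pow_pos hsβγ 2)),
    log_mul hc2.ne' (pow_pos hsγ 2).ne', log_mul hR2.ne' (pow_pos hsβγ 2).ne', log_rpow h.hc,
    log_pow, log_pow, log_pow, e]
  push_cast
  linarith

/-- for `β < γ ≤ π/2`: `c^(2/k) sin (γ-β) < R² sin (γ+β)`, from `key` and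
`sin² γ = sin (γ+β) sin (γ-β) + sin² β > sin (γ+β) sin (γ-β)` -/
theorem Pol.R_ineq (h : Pol k c β γ R S) (hγ : β < γ) (hγ2 : γ ≤ π / 2) :
    c ^ (2 / k) * sin (γ - β) < R ^ 2 * sin (γ + β) := by
  have hk0 : 0 < k := lt_of_lt_of_le one_pos h.hk
  have hkey := h.key
  have hβγ : β + γ < π := by
    have h1 : β + γ ≤ k * (β + γ) :=
      le_mul_of_one_le_left (by linarith [h.β0, h.γ0]) h.hk
    linarith [h.sum_lt]
  have hsβ : 0 < sin β := sin_pos_of_pos_of_lt_pi h.β0 (by linarith [h.β1, pi_pos])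
  have hsβγ : 0 < sin (γ + β) := sin_pos_of_pos_of_lt_pi (by linarith [h.β0, h.γ0]) (by linarith)
  have hc2 : 0 < c ^ (2 / k) := rpow_pos_of_pos h.hc _
  have hid : sin γ ^ 2 = sin (γ + β) * sin (γ - β) + sin β ^ 2 := by
    rw [sin_add, sin_sub]
    have h1 := sin_sq_add_cos_sq γ
    have h2 := sin_sq_add_cos_sq β
    linear_combination (sin γ ^ 2) * (-h2) + sin β ^ 2 * h1
  have h1 : c ^ (2 / k) * (sin (γ + β) * sin (γ - β)) < R ^ 2 * sin (γ + β) ^ 2 := by
    have h2 : c ^ (2 / k) * (sin (γ + β) * sin (γ - β)) < c ^ (2 / k) * sin γ ^ 2 := by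
      apply mul_lt_mul_of_pos_left _ hc2
      rw [hid]
      have : 0 < sin β ^ 2 := by positivity
      linarith
    linarith
  have h3 : sin (γ + β) * (c ^ (2 / k) * sin (γ - β)) < sin (γ + β) * (R ^ 2 * sin (γ + β)) := by
    nlinarith [h1]
  exact lt_of_mul_lt_mul_left h3 hsβγ.le

/-- for `π/2 ≤ γ`: `c^(2/k) < R² cos β`: `0 < sin (γ+β) ≤ sin γ cos β` (as `cos γ ≤ 0`,
`γ + β < π/k ≤ π`), so `key` gives `c^(2/k) sin² γ ≤ R² sin² γ cos² β < R² sin² γ cos β`. -/
theorem Pol.S_ineq (h : Pol k c β γ R S) (hγ : π / 2 ≤ γ) :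
    c ^ (2 / k) < R ^ 2 * cos β := by
  have hk0 : 0 < k := lt_of_lt_of_le one_pos h.hk
  have hkey := h.key
  have hR := h.hR
  have hβγ : β + γ < π := by
    have h1 : β + γ ≤ k * (β + γ) :=
      le_mul_of_one_le_left (by linarith [h.β0, h.γ0]) h.hk
    linarith [h.sum_lt]
  have hβ0 := h.β0
  have hβ1 := h.β1
  have hγ0 := h.γ0
  have hsβ : 0 < sin β := sin_pos_of_pos_of_lt_pi hβ0 (by linarith [pi_pos])
  have hcβ : 0 < cos β := cos_pos_of_mem_Ioo ⟨by linarith [pi_pos], hβ1⟩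
  have hcβ1 : cos β < 1 := by
    have h1 := cos_lt_cos_of_nonneg_of_le_pi_div_two (le_refl (0:ℝ)) hβ1.le hβ0
    rwa [cos_zero] at h1
  have hsγ : 0 < sin γ := sin_pos_of_pos_of_lt_pi hγ0 (by linarith)
  have hcγ : cos γ ≤ 0 := cos_nonpos_of_pi_div_two_le_of_le hγ (by linarith [pi_pos])
  have hsβγ : 0 < sin (γ + β) := sin_pos_of_pos_of_lt_pi (by linarith) (by linarith)
  have hle : sin (γ + β) ≤ sin γ * cos β := by
    rw [sin_add]
    nlinarith [mul_nonneg (neg_nonneg.mpr hcγ) hsβ.le]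
  have hsq : sin (γ + β) ^ 2 ≤ (sin γ * cos β) ^ 2 := pow_le_pow_left₀ hsβγ.le hle 2
  have h1 : c ^ (2 / k) * sin γ ^ 2 < (R ^ 2 * cos β) * sin γ ^ 2 := by
    have hR2 : 0 < R ^ 2 := by positivity
    have h2 : R ^ 2 * sin (γ + β) ^ 2 ≤ R ^ 2 * (sin γ * cos β) ^ 2 :=
      mul_le_mul_of_nonneg_left hsq hR2.le
    have h3 : R ^ 2 * (sin γ * cos β) ^ 2 < (R ^ 2 * cos β) * sin γ ^ 2 := by
      have h4 : 0 < R ^ 2 * sin γ ^ 2 * (cos β * (1 - cos β)) := by
        have : 0 < 1 - cos β := by linarith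
        positivity
      nlinarith [h4]
    linarith
  exact lt_of_mul_lt_mul_right h1 (by positivity)

end EQ2K
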